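import Pool.Agent.Helper37.BT.Fin

/-!
# Curves cut out on a projective variety by forms with coefficients in a linear system: no Galois sections

Let `k` be a finitely generated field of characteristic zero and let `F` be a finitely generated subfield of `k`.
Let `w_0, …, w_m` be elements of `k` such that one of the quotients `w_i / w_j` is transcendental over `F`; for
example a basis of a Riemann-Roch space `L(D)` of dimension at least two, if `k` is the function field of a
(geometrically integral, projective, normal) curve or variety over `F`; for `k = F(T)` one can take `1, T, …, T^m`.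

Let `X ⊂ P^n` be a projective variety (or scheme) over `k` of dimension at most `t + 1`, given by forms `h_u`, and let
`d_1, …, d_t` be degrees.  We consider the curves `C = X ∩ {f_1 = … = f_t = 0}`, where `f_s` runs through all forms
of degree `d_s` in `X_0, …, X_n` whose coefficients are in the `F`-vector space generated by `w_0, …, w_m`.  For all
`(f_1, …, f_t)` outside a thin subset (in the sense of Serre) of the corresponding affine space over `F` the
following holds: for all `s` with `d_s ≥ 3`, all primes `p` dividing `d_s` and all finite extensions `k'` of `k`
whose degree is prime to `p`, the curve `C` over `k'`, and every curve (or variety) over `k'` with a nonconstant map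
to `C`, has no Galois section.

Special cases.
* `X = P^(t + 1)`: all complete intersection curves in the projective space such that one of the degrees is at least
  three (for all multidegrees `(d_1, …, d_t)` with this property): plane curves of degree `d ≥ 3`; the
  complete intersections of a quadric and a cubic in `P^3` (these are the non-hyperelliptic curves of genus four).
* `X` a smooth projective surface and `t = 1`: the curves in the linear system `|d H|`, where `H` is the hyperplane
  class of `X` and `d ≥ 3`; for example on K3 surfaces, abelian surfaces, products of two curves, ….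
So those of these curves which are smooth, geometrically connected and of genus at least two satisfy the section
conjecture over all these fields `k'` (in particular over `k`), and so do all curves over them.  (If `X` is smooth and
geometrically connected of dimension `t + 1`, then by Bertini's theorem all of these curves outside a closed subset
are smooth and geometrically connected.)  There is no assumption on the singularities of `X`.

The field `F` is Hilbertian, so the complement of a thin set is big (Zariski dense; for number fields it contains 100
percent of the integral points if they are ordered by height).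
-/

universe u

namespace Pool.Agent.Helper37.Draft.HypersurfaceSections

open Polynomial Pool.Agent.Helper91.Sect

/-- Thin sets in the sense of Serre: a set `A` of points of the affine space `F ^ I` is thin if there are a nonzero
polynomial `Ψ` and finitely many polynomials `Q(X)` of degree at least two, whose coefficients are polynomials on
`F ^ I`, and which are irreducible over the field of rational functions on `F ^ I`, such that for all `a ∈ A`
either `Ψ(a) = 0` or one of the polynomials `Q(a, X)` has a root in `F`. -/
def IsThin {F : Type u} [Field F] {I : Type} (A : Set (I → F)) : Prop :=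
  ∃ (Ψ : MvPolynomial I F) (S : Finset (MvPolynomial I F)[X]), Ψ ≠ 0 ∧
    (∀ Q ∈ S, 2 ≤ Q.natDegree ∧ Irreducible (Q.map (algebraMap (MvPolynomial I F)
      (FractionRing (MvPolynomial I F))))) ∧
    ∀ a ∈ A, MvPolynomial.eval a Ψ = 0 ∨ ∃ Q ∈ S, ∃ x : F, eval₂ (MvPolynomial.eval a) x Q = 0

/-- the exponents of the monomials of degree `d` in `X_0, …, X_n` -/
abbrev Expo (n d : ℕ) : Type := {q : Fin (n + 1) → Fin (d + 1) // ∑ i, (q i : ℕ) = d}

/-- The form `f_s = ∑_q a_(s,q) X^q` of degree `d_s` with the coefficients `a_(s,q) = ∑_{e ≤ m} a_(s,q,e) w_e`. -/
noncomputable def form {F k : Type u} [Field F] [Field k] [Algebra F k] {n t m : ℕ}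
    {d : Fin t → ℕ} (w : Fin (m + 1) → k) (a : (Σ s : Fin t, Expo n (d s)) × Fin (m + 1) → F)
    (s : Fin t) : MvPolynomial (Fin (n + 1)) k :=
  ∑ q : Expo n (d s), MvPolynomial.C (∑ e : Fin (m + 1), algebraMap F k (a (⟨s, q⟩, e)) * w e) *
    ∏ i, MvPolynomial.X i ^ (q.1 i : ℕ)

/-- The subscheme of `P^n` given by the forms `h_u` has dimension at most `D`: there are `D + 1` linear forms which
have no common zero on it. -/
def DimLE {k : Type u} [Field k] {n : ℕ} {U : Type} (h : U → MvPolynomial (Fin (n + 1)) k)
    (D : ℕ) : Prop :=
  ∃ l : Fin (D + 1) → Fin (n + 1) → k, ∀ (L : Type u) [Field L] [Algebra k L] (P : Fin (n + 1) → L),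
    (∀ i, ∑ j, algebraMap k L (l i j) * P j = 0) → (∀ u, MvPolynomial.aeval P (h u) = 0) → P = 0

/-- For all `s` with `d_s ≥ 3`, all primes `p` dividing `d_s` and all finite extensions `k'` of `k` of degree prime
to `p`: no curve over `k'` which maps onto the curve given by the forms `h_u` and `f_s` has a Galois section, that
is, there is no Galois section of `K / k'` if the curve has a nonconstant point `P` (a point such that one of the
quotients `P_i / P_j` is transcendental over `k'`) with coordinates in the extension field `K` of `k'`. -/
def NoSections {k : Type u} [Field k] {n t : ℕ} {U : Type} (h : U → MvPolynomial (Fin (n + 1)) k)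
    (d : Fin t → ℕ) (f : Fin t → MvPolynomial (Fin (n + 1)) k) : Prop :=
  ∀ s, 3 ≤ d s → ∀ p : ℕ, p.Prime → p ∣ d s →
    ∀ (k' : Type u) [Field k'] [Algebra k k'], FiniteDimensional k k' →
      ¬ p ∣ Module.finrank k k' →
    ∀ (K : Type u) [Field K] [Algebra k' K] (P : Fin (n + 1) → K) (i j : Fin (n + 1)),
      Transcendental k' (P i / P j) →
      (∀ u, MvPolynomial.aeval P (MvPolynomial.map (algebraMap k k') (h u)) = 0) →
      (∀ s, MvPolynomial.aeval P (MvPolynomial.map (algebraMap k k') (f s)) = 0) →
    IsEmpty (GaloisSection k' K)

/-- **The curves cut out on a projective variety by forms with coefficients in a linear system have no Galois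
sections**, if one of the degrees is at least three. -/
theorem result {F k : Type u} [Field F] [CharZero F] [Field k] [Algebra F k]
    -- `F` and `k` are finitely generated fields
    (hF : ∃ S : Finset F, Subfield.closure (S : Set F) = ⊤)
    (hk : ∃ S : Finset k, Subfield.closure (S : Set k) = ⊤)
    -- the quotient of two of the `w_e` is transcendental over `F`
    {m : ℕ} {w : Fin (m + 1) → k} {i j : Fin (m + 1)} (hw : Transcendental F (w i / w j))
    -- the number of the forms, the dimension of the projective space and the degrees
    {t n : ℕ} (ht : t + 1 ≤ n) (d : Fin t → ℕ)
    -- the variety given by the forms `h_u` has dimension at most `t + 1`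
    {r : ℕ} {e : Fin r → ℕ} {h : Fin r → MvPolynomial (Fin (n + 1)) k}
    (hh : ∀ u, (h u).IsHomogeneous (e u)) (hdim : DimLE h (t + 1)) :
    -- the set of the exceptional curves is thin
    IsThin {a : (Σ s : Fin t, Expo n (d s)) × Fin (m + 1) → F | ¬ NoSections h d (form w a)} := by
  obtain ⟨l, hl⟩ := hdim
  refine UL.IsThin.mono (Pool.Agent.BT.bertini hF hk hw ht h hh l hl) fun a ha => ?_
  by_contra hne
  refine ha ?_
  intro s hs p hp hpd k' _ _ hfin hdeg K _ _ P i j hij hPh hPf
  exact ⟨fun σ => hne ⟨s, hs, p, hp, hpd, k', _, _, hfin, hdeg, K, _, _, P, ⟨i, j, hij⟩, hPh, hPf,
    ⟨σ⟩⟩⟩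

end Pool.Agent.Helper37.Draft.HypersurfaceSections
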