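import Pool.Agent.Helper37.TQ.FinQ

/-!
# Curves cut out on a projective variety by forms with coefficients in a linear system: no Galois sections

Let `k` be a finitely generated field of characteristic zero and let `F` be a finitely generated subfield of `k`.
Let `w_0, …, w_m` be elements of `k` such that one of the quotients `w_i / w_j` is transcendental over `F`; for
example a basis of a Riemann-Roch space `L(D)` of dimension at least two, if `k` is the function field of a
(geometrically integral, projective, normal) curve or variety over `F`; for `k = F(T)` one can take `1, T, …, T^m`.

Let `X ⊂ P^n` be a projective variety (or scheme) over `k` of dimension at most `t + 1`, given by forms `h_u`, and let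
`d_1, …, d_t` be degrees.  We consider the curves `C = X ∩ {f_1 = … = f_t = 0}`, where `f_s` runs through all forms
of degree `d_s` in `X_0, …, X_n` whose coefficients are in the `F`-vector space generated by `w_0, …, w_m`.  For all
`(f_1, …, f_t)` outside a thin subset (in the sense of Serre) of the corresponding affine space over `F` the
following holds: for all primes `p` such that the sum of those of the degrees `d_1, …, d_t` which are divisible by
`p` is at least three, and for all finite extensions `k'` of `k` whose degree is prime to `p`, the curve `C` over
`k'`, and every curve (or variety) over `k'` with a nonconstant map to `C`, has no Galois section.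
(The condition on `p` says that `p` divides some `d_s ≥ 3`, or that `p = 2` and two of the degrees are equal to
two.)

Special cases (always for the curves outside a thin set).
* `X = P^(t + 1)`: the complete intersection curves in the projective space of all multidegrees `(d_1, …, d_t)`
  for which these curves have positive genus, that is, all multidegrees (with `d_s ≥ 2`) except the conics.  So the
  section conjecture holds for all complete intersection curves of genus at least two outside a thin set: plane
  curves of degree `d ≥ 4` (for `d = 4` the non-hyperelliptic curves of genus three), the complete intersections of a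
  quadric and a cubic in `P^3` (the non-hyperelliptic curves of genus four), of three quadrics in `P^4` (the general
  curves of genus five), ….
* `X` a smooth projective surface and `t = 1`: the curves cut out by forms of degree `d ≥ 3`, they are in the linear
  system `|d H|`, where `H` is the hyperplane class of `X`; for example on K3 surfaces, abelian surfaces, products of
  two curves, ….
So those of these curves which are smooth, geometrically connected and of genus at least two satisfy the section
conjecture over all these fields `k'` (in particular over `k`), and so do all curves over them.  (If `X` is smooth and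
geometrically connected of dimension `t + 1`, then by Bertini's theorem all of these curves outside a closed subset
are smooth and geometrically connected.)  There is no assumption on the singularities of `X`.

The field `F` is Hilbertian, so the complement of a thin set is big (Zariski dense; for number fields it contains 100
percent of the integral points if they are ordered by height).
-/

universe u

namespace Pool.Agent.Helper37.Draft.HypersurfaceSectionsQ

open Polynomial Pool.Agent.Helper91.Sect

/-- Thin sets in the sense of Serre: a set `A` of points of the affine space `F ^ I` is thin if there are a nonzero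
polynomial `Ψ` and finitely many polynomials `Q(X)` of degree at least two, whose coefficients are polynomials on
`F ^ I`, and which are irreducible over the field of rational functions on `F ^ I`, such that for all `a ∈ A`
either `Ψ(a) = 0` or one of the polynomials `Q(a, X)` has a root in `F`. -/
def IsThin {F : Type u} [Field F] {I : Type} (A : Set (I → F)) : Prop :=
  ∃ (Ψ : MvPolynomial I F) (S : Finset (MvPolynomial I F)[X]), Ψ ≠ 0 ∧
    (∀ Q ∈ S, 2 ≤ Q.natDegree ∧ Irreducible (Q.map (algebraMap (MvPolynomial I F)
      (FractionRing (MvPolynomial I F))))) ∧
    ∀ a ∈ A, MvPolynomial.eval a Ψ = 0 ∨ ∃ Q ∈ S, ∃ x : F, eval₂ (MvPolynomial.eval a) x Q = 0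

/-- the exponents of the monomials of degree `d` in `X_0, …, X_n` -/
abbrev Expo (n d : ℕ) : Type := {q : Fin (n + 1) → Fin (d + 1) // ∑ i, (q i : ℕ) = d}

/-- The form `f_s = ∑_q a_(s,q) X^q` of degree `d_s` with the coefficients `a_(s,q) = ∑_{e ≤ m} a_(s,q,e) w_e`. -/
noncomputable def form {F k : Type u} [Field F] [Field k] [Algebra F k] {n t m : ℕ}
    {d : Fin t → ℕ} (w : Fin (m + 1) → k) (a : (Σ s : Fin t, Expo n (d s)) × Fin (m + 1) → F)
    (s : Fin t) : MvPolynomial (Fin (n + 1)) k :=
  ∑ q : Expo n (d s), MvPolynomial.C (∑ e : Fin (m + 1), algebraMap F k (a (⟨s, q⟩, e)) * w e) *
    ∏ i, MvPolynomial.X i ^ (q.1 i : ℕ)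

/-- The subscheme of `P^n` given by the forms `h_u` has dimension at most `D`: there are `D + 1` linear forms which
have no common zero on it. -/
def DimLE {k : Type u} [Field k] {n : ℕ} {U : Type} (h : U → MvPolynomial (Fin (n + 1)) k)
    (D : ℕ) : Prop :=
  ∃ l : Fin (D + 1) → Fin (n + 1) → k, ∀ (L : Type u) [Field L] [Algebra k L] (P : Fin (n + 1) → L),
    (∀ i, ∑ j, algebraMap k L (l i j) * P j = 0) → (∀ u, MvPolynomial.aeval P (h u) = 0) → P = 0

/-- For all primes `p` such that the sum of the degrees `d_s` which are divisible by `p` is at least three and all
finite extensions `k'` of `k` of degree prime to `p`: no curve over `k'` which maps onto the curve given by the forms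
`h_u` and `f_s` has a Galois section, that is, there is no Galois section of `K / k'` if the curve has a nonconstant
point `P` (a point such that one of the quotients `P_i / P_j` is transcendental over `k'`) with coordinates in the
extension field `K` of `k'`. -/
def NoSections {k : Type u} [Field k] {n t : ℕ} {U : Type} (h : U → MvPolynomial (Fin (n + 1)) k)
    (d : Fin t → ℕ) (f : Fin t → MvPolynomial (Fin (n + 1)) k) : Prop :=
  ∀ p : ℕ, p.Prime → 3 ≤ ∑ s, (if p ∣ d s then d s else 0) →
    ∀ (k' : Type u) [Field k'] [Algebra k k'], FiniteDimensional k k' →
      ¬ p ∣ Module.finrank k k' →
    ∀ (K : Type u) [Field K] [Algebra k' K] (P : Fin (n + 1) → K) (i j : Fin (n + 1)),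
      Transcendental k' (P i / P j) →
      (∀ u, MvPolynomial.aeval P (MvPolynomial.map (algebraMap k k') (h u)) = 0) →
      (∀ s, MvPolynomial.aeval P (MvPolynomial.map (algebraMap k k') (f s)) = 0) →
    IsEmpty (GaloisSection k' K)

/-- **The curves cut out on a projective variety by forms with coefficients in a linear system have no Galois
sections.** -/
theorem result {F k : Type u} [Field F] [CharZero F] [Field k] [Algebra F k]
    -- `F` and `k` are finitely generated fields
    (hF : ∃ S : Finset F, Subfield.closure (S : Set F) = ⊤)
    (hk : ∃ S : Finset k, Subfield.closure (S : Set k) = ⊤)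
    -- the quotient of two of the `w_e` is transcendental over `F`
    {m : ℕ} {w : Fin (m + 1) → k} {i j : Fin (m + 1)} (hw : Transcendental F (w i / w j))
    -- the number of the forms, the dimension of the projective space and the degrees
    {t n : ℕ} (ht : t + 1 ≤ n) (d : Fin t → ℕ)
    -- the variety given by the forms `h_u` has dimension at most `t + 1`
    {r : ℕ} {e : Fin r → ℕ} {h : Fin r → MvPolynomial (Fin (n + 1)) k}
    (hh : ∀ u, (h u).IsHomogeneous (e u)) (hdim : DimLE h (t + 1)) :
    -- the set of the exceptional curves is thin
    IsThin {a : (Σ s : Fin t, Expo n (d s)) × Fin (m + 1) → F | ¬ NoSections h d (form w a)} := by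
  obtain ⟨l, hl⟩ := hdim
  refine UL.IsThin.mono (Pool.Agent.TQ.bertiniQ hF hk hw ht h hh l hl) fun a ha => ?_
  by_contra hne
  refine ha ?_
  intro p hp hpd k' _ _ hfin hdeg K _ _ P i j hij hPh hPf
  exact ⟨fun σ => hne ⟨p, hp, hpd, k', _, _, hfin, hdeg, K, _, _, P, ⟨i, j, hij⟩, hPh, hPf, ⟨σ⟩⟩⟩

end Pool.Agent.Helper37.Draft.HypersurfaceSectionsQ
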