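import Pool.Agent.Helper37.SX.Fin

/-!
# Curves cut out on a projective variety by forms with coefficients in a linear system: no Galois sections

Let `k` be a finitely generated field of characteristic zero and let `F` be a finitely generated subfield of `k`.
Let `w_0, …, w_m` be elements of `k` such that one of the quotients `w_i / w_j` is transcendental over `F`; for
example a basis of a Riemann-Roch space `L(D)` of dimension at least two, if `k` is the function field of a
(geometrically integral, projective, normal) curve or variety over `F`; for `k = F(T)` one can take `1, T, …, T^m`.

Let `X ⊂ P^n` be a projective variety (or scheme) over `k` of dimension at most `t + 1`, given by forms `h_u`, and let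
`d_1, …, d_t` be degrees.  We consider the curves `C = X ∩ {f_1 = … = f_t = 0}`, where `f_s` runs through all forms
of degree `d_s` in `X_0, …, X_n` whose coefficients are in the `F`-vector space generated by `w_0, …, w_m`.  For all
`(f_1, …, f_t)` outside a thin subset (in the sense of Serre) of the corresponding affine space over `F` the
following holds: if `k'` is a finite extension of `k` such that the curve `C` over `k'`, or some curve (or variety)
over `k'` with a nonconstant map to `C`, has a Galois section, then the degree of `k'` over `k` is divisible by every
`d_s ≥ 3`, and by two if two of the degrees are equal to two.  (For plane curves, and more generally if `X` is a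
linear space and `t = 1`, this is the best possible: the curve has points over extensions of degree `d`.)

Special cases (always for the curves outside a thin set).
* `X = P^(t + 1)`: the complete intersection curves in the projective space of all multidegrees `(d_1, …, d_t)`
  for which these curves have positive genus, that is, all multidegrees (with `d_s ≥ 2`) except the conics.  So the
  section conjecture holds for all complete intersection curves of genus at least two outside a thin set: plane
  curves of degree `d ≥ 4` (for `d = 4` the non-hyperelliptic curves of genus three), the complete intersections of a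
  quadric and a cubic in `P^3` (the non-hyperelliptic curves of genus four), of three quadrics in `P^4` (the general
  curves of genus five), ….
* `X` a smooth projective surface and `t = 1`: the curves cut out by forms of degree `d ≥ 3`, they are in the linear
  system `|d H|`, where `H` is the hyperplane class of `X`; for example on K3 surfaces, abelian surfaces, products of
  two curves, ….
So, if some `d_s ≥ 3` or if two of the degrees are equal to two, those of these curves which are smooth,
geometrically connected and of genus at least two satisfy the section conjecture over `k`, and over all finite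
extensions `k'` whose degree is not divisible by some `d_s ≥ 3` (or by two if two of the degrees are equal to two),
and so do all curves over them.  (If `X` is smooth and geometrically connected of dimension `t + 1`, then by
Bertini's theorem all of these curves outside a closed subset are smooth and geometrically connected.)  There is no
assumption on the singularities of `X`.

The field `F` is Hilbertian, so the complement of a thin set is big (Zariski dense; for number fields it contains 100
percent of the integral points if they are ordered by height).
-/

universe u

namespace Pool.Agent.Helper37.Draft.HypersurfaceSectionsS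

open Polynomial Pool.Agent.Helper91.Sect

/-- Thin sets in the sense of Serre: a set `A` of points of the affine space `F ^ I` is thin if there are a nonzero
polynomial `Ψ` and finitely many polynomials `Q(X)` of degree at least two, whose coefficients are polynomials on
`F ^ I`, and which are irreducible over the field of rational functions on `F ^ I`, such that for all `a ∈ A`
either `Ψ(a) = 0` or one of the polynomials `Q(a, X)` has a root in `F`. -/
def IsThin {F : Type u} [Field F] {I : Type} (A : Set (I → F)) : Prop :=
  ∃ (Ψ : MvPolynomial I F) (S : Finset (MvPolynomial I F)[X]), Ψ ≠ 0 ∧
    (∀ Q ∈ S, 2 ≤ Q.natDegree ∧ Irreducible (Q.map (algebraMap (MvPolynomial I F)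
      (FractionRing (MvPolynomial I F))))) ∧
    ∀ a ∈ A, MvPolynomial.eval a Ψ = 0 ∨ ∃ Q ∈ S, ∃ x : F, eval₂ (MvPolynomial.eval a) x Q = 0

/-- the exponents of the monomials of degree `d` in `X_0, …, X_n` -/
abbrev Expo (n d : ℕ) : Type := {q : Fin (n + 1) → Fin (d + 1) // ∑ i, (q i : ℕ) = d}

/-- The form `f_s = ∑_q a_(s,q) X^q` of degree `d_s` with the coefficients `a_(s,q) = ∑_{e ≤ m} a_(s,q,e) w_e`. -/
noncomputable def form {F k : Type u} [Field F] [Field k] [Algebra F k] {n t m : ℕ}
    {d : Fin t → ℕ} (w : Fin (m + 1) → k) (a : (Σ s : Fin t, Expo n (d s)) × Fin (m + 1) → F)
    (s : Fin t) : MvPolynomial (Fin (n + 1)) k :=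
  ∑ q : Expo n (d s), MvPolynomial.C (∑ e : Fin (m + 1), algebraMap F k (a (⟨s, q⟩, e)) * w e) *
    ∏ i, MvPolynomial.X i ^ (q.1 i : ℕ)

/-- The subscheme of `P^n` given by the forms `h_u` has dimension at most `D`: there are `D + 1` linear forms which
have no common zero on it. -/
def DimLE {k : Type u} [Field k] {n : ℕ} {U : Type} (h : U → MvPolynomial (Fin (n + 1)) k)
    (D : ℕ) : Prop :=
  ∃ l : Fin (D + 1) → Fin (n + 1) → k, ∀ (L : Type u) [Field L] [Algebra k L] (P : Fin (n + 1) → L),
    (∀ i, ∑ j, algebraMap k L (l i j) * P j = 0) → (∀ u, MvPolynomial.aeval P (h u) = 0) → P = 0

/-- If a curve over the finite extension `k'` of `k` which maps onto the curve given by the forms `h_u` and `f_s` has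
a Galois section, then `[k' : k]` is divisible by every `d_s ≥ 3`, and by two if two of the `d_s` are equal to two.
Here a curve over `k'` which maps onto the curve `h = f = 0` is given by its function field `K` and a nonconstant
point `P` (a point such that one of the quotients `P_i / P_j` is transcendental over `k'`) with coordinates in `K`;
`K` may be any extension field of `k'`. -/
def SectionDegrees {k : Type u} [Field k] {n t : ℕ} {U : Type} (h : U → MvPolynomial (Fin (n + 1)) k)
    (d : Fin t → ℕ) (f : Fin t → MvPolynomial (Fin (n + 1)) k) : Prop :=
  ∀ (k' : Type u) [Field k'] [Algebra k k'], FiniteDimensional k k' →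
    ∀ (K : Type u) [Field K] [Algebra k' K] (P : Fin (n + 1) → K) (i j : Fin (n + 1)),
      Transcendental k' (P i / P j) →
      (∀ u, MvPolynomial.aeval P (MvPolynomial.map (algebraMap k k') (h u)) = 0) →
      (∀ s, MvPolynomial.aeval P (MvPolynomial.map (algebraMap k k') (f s)) = 0) →
    Nonempty (GaloisSection k' K) →
    (∀ s, 3 ≤ d s → d s ∣ Module.finrank k k') ∧
      ∀ s s', s ≠ s' → d s = 2 → d s' = 2 → 2 ∣ Module.finrank k k'

/-- **The curves cut out on a projective variety by forms with coefficients in a linear system have no Galois
sections over extensions of small degree.** -/
theorem result {F k : Type u} [Field F] [CharZero F] [Field k] [Algebra F k]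
    -- `F` and `k` are finitely generated fields
    (hF : ∃ S : Finset F, Subfield.closure (S : Set F) = ⊤)
    (hk : ∃ S : Finset k, Subfield.closure (S : Set k) = ⊤)
    -- the quotient of two of the `w_e` is transcendental over `F`
    {m : ℕ} {w : Fin (m + 1) → k} {i j : Fin (m + 1)} (hw : Transcendental F (w i / w j))
    -- the number of the forms, the dimension of the projective space and the degrees
    {t n : ℕ} (ht : t + 1 ≤ n) (d : Fin t → ℕ)
    -- the variety given by the forms `h_u` has dimension at most `t + 1`
    {r : ℕ} {e : Fin r → ℕ} {h : Fin r → MvPolynomial (Fin (n + 1)) k}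
    (hh : ∀ u, (h u).IsHomogeneous (e u)) (hdim : DimLE h (t + 1)) :
    -- the set of the exceptional curves is thin
    IsThin {a : (Σ s : Fin t, Expo n (d s)) × Fin (m + 1) → F | ¬ SectionDegrees h d (form w a)} := by
  obtain ⟨l, hl⟩ := hdim
  refine UL.IsThin.mono (Pool.Agent.SX.bertiniS hF hk hw ht h hh l hl) fun a ha => ?_
  by_contra hne
  refine ha ?_
  intro k' _ _ hfin K _ _ P i j hij hPh hPf hsec
  refine ⟨fun s hs => ?_, fun s s' hss hs hs' => ?_⟩
  · by_contra hdeg
    exact hne (Or.inl ⟨s, hs, k', _, _, hfin, hdeg, K, _, _, P, ⟨i, j, hij⟩, hPh, hPf, hsec⟩)
  · by_contra hdeg
    exact hne (Or.inr ⟨s, s', hss, hs, hs', k', _, _, hfin, hdeg, K, _, _, P, ⟨i, j, hij⟩, hPh, hPf,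
      hsec⟩)

end Pool.Agent.Helper37.Draft.HypersurfaceSectionsS
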