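import Pool.Agent.Helper37.UT.T4
import Pool.Agent.Helper10.UT.Geo

/-!
# Galois sections of the curves cut out by forms with coefficients in a linear system, uniformly in the field of
# constants

Let `F₀ ⊂ k₀` be fields of characteristic zero, `k₀` finitely generated.  Let `w_0, …, w_m` be elements of `k₀` such
that one of the quotients `w_i / w_l` is transcendental over `F₀`.  For example `k₀` is the function field of a
variety over `F₀` and `w_0, …, w_m` is a basis of a Riemann-Roch space `L(D)` of dimension at least two, or
`k₀ = F₀(t_1, …, t_r)` and the `w_e` are the monomials of degree at most `m ≥ 1`.  Let `X ⊂ P^n` be a projective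
variety (or scheme) over `k₀` of dimension at most `t + 1`, given by forms `h_u`, and let `d_1, …, d_t` be degrees.

Then there is ONE polynomial `Q(a, X)`, with coefficients in `F₀`, in `X` and in the variables `a = (a_{s,q,e})`,
which has no root in the field of rational functions `F̄₀(a)`, such that the following holds for all finitely generated
extension fields `F` of `F₀` and all composites `k = F k₀` of `F` and `k₀` over `F₀` in which `F` and `k₀` are
algebraically free over `F₀` (for `k₀ = F₀(t_1, …, t_r)`: for all `F` and for `k = F(t_1, …, t_r)`).  Let `a` be any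
point over `F`, and let `f_s = ∑_q (∑_e a_{s,q,e} w_e) X^q` be the forms of degree `d_s` in `X_0, …, X_n` with these
coefficients in the linear system, `s = 1, …, t`.  Let `k'` be any finite extension of `k` and let `E` be a subfield
of `k'` which is algebraic over `F`, such that `Q(a, X)` has no root in `E`.  If the curve
`C = X ∩ {f_1 = … = f_t = 0}` over `k'`, or some curve (or variety) over `k'` with a nonconstant map to `C`, has a
Galois section, then the degree of `k'` over `E k` is divisible by every `d_s ≥ 3`, and by two if two of the degrees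
are equal to two.

The points `a` over `F` for which `Q(a, X)` has a root in `F` (or in a given finite extension `E` of `F`) form a thin
set in the sense of Serre.  So the theorem says that the curves outside one thin set, which is the same one for all
fields `F`, have sections only over extensions `k'` of `k` of degree divisible by these numbers; in particular they
have no sections over `k` if some `d_s ≥ 3` or two of the `d_s` are two.

If two quotients `w_i / w_l`, `w_j / w_l` are algebraically independent over `F₀`, the polynomial `Q` does not depend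
on `X`: the exceptional curves are in one hypersurface over `F₀` for all fields `F`, and for `E` one can take the
algebraic closure of `F` in `k'`.

Special cases.
* `X = P^(t + 1)`: the complete intersection curves of all multidegrees `(d_1, …, d_t)` with `d_s ≥ 2` except the
  conics: plane curves of degree `d ≥ 3` (for `d = 4` the non-hyperelliptic curves of genus three), the complete
  intersections of a quadric and a cubic in `P^3` (the non-hyperelliptic curves of genus four), of three quadrics in
  `P^4` (the general curves of genus five), ….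
* `X` a smooth projective surface and `t = 1`: the curves in `|d H|`, `d ≥ 3`, cut out by forms, where `H` is the
  hyperplane class of `X`.
There is no assumption on the singularities of `X`.

The divisibility by `d_s` is the best possible one: over an algebraic closure of `k` a hyperplane (a system of linear
forms) which is defined over `k` meets a plane curve of degree `d` in `d` points, so that it has sections over an
extension of degree `d`.  If the transcendence degree of the linear system is one, the exceptional set is thin but it
is in general not contained in a hypersurface: a pencil of plane curves has rational points for a Zariski dense set of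
the parameters, those which have a base point over `F`.
-/

universe u

namespace Pool.Agent.Helper37.Draft.LinearSystemsOnVarieties

open Polynomial Pool.Agent.Helper91.Sect

/-- the exponents of the monomials of degree `d` in `X_0, …, X_n` -/
abbrev Expo (n d : ℕ) : Type := {q : Fin (n + 1) → Fin (d + 1) // ∑ i, (q i : ℕ) = d}

/-- The form `f_s = ∑_q a_(s,q) X^q` of degree `d_s` with the coefficients `a_(s,q) = ∑_{e ≤ m} a_(s,q,e) w_e`. -/
noncomputable def form {F k : Type u} [Field F] [Field k] [Algebra F k] {n t m : ℕ}
    {d : Fin t → ℕ} (w : Fin (m + 1) → k) (a : (Σ s : Fin t, Expo n (d s)) × Fin (m + 1) → F)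
    (s : Fin t) : MvPolynomial (Fin (n + 1)) k :=
  ∑ q : Expo n (d s), MvPolynomial.C (∑ e : Fin (m + 1), algebraMap F k (a (⟨s, q⟩, e)) * w e) *
    ∏ i, MvPolynomial.X i ^ (q.1 i : ℕ)

/-- The subscheme of `P^n` given by the forms `h_u` has dimension at most `D`: there are `D + 1` linear forms which
have no common zero on it. -/
def DimLE {k : Type u} [Field k] {n : ℕ} {U : Type} (h : U → MvPolynomial (Fin (n + 1)) k)
    (D : ℕ) : Prop :=
  ∃ l : Fin (D + 1) → Fin (n + 1) → k, ∀ (L : Type u) [Field L] [Algebra k L] (P : Fin (n + 1) → L),
    (∀ i, ∑ j, algebraMap k L (l i j) * P j = 0) → (∀ u, MvPolynomial.aeval P (h u) = 0) → P = 0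

/-- The field `k` is a composite of `F` and `k₀` over `F₀`, in which `F` and `k₀` are algebraically free over `F₀`:
it is generated by `F` and `k₀`, and elements of `k₀` which are algebraically independent over `F₀` are
algebraically independent over `F`. -/
def FreeComposite (F₀ k₀ F k : Type u) [Field F₀] [Field k₀] [Field F] [Field k] [Algebra F₀ k₀]
    [Algebra F k] [Algebra k₀ k] : Prop :=
  IntermediateField.adjoin F (Set.range (algebraMap k₀ k)) = ⊤ ∧
    ∀ (n : ℕ) (x : Fin n → k₀), AlgebraicIndependent F₀ x →
      AlgebraicIndependent F fun i => algebraMap k₀ k (x i)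

/-- The polynomial `Q(a, X)`, whose coefficients are polynomials over `F₀` in the variables `a`, has no root in the
field of rational functions in these variables over the algebraic closure of `F₀`. -/
def NoRoot {F₀ : Type u} [Field F₀] {I : Type} (Q : (MvPolynomial I F₀)[X]) : Prop :=
  ∀ r : FractionRing (MvPolynomial I (AlgebraicClosure F₀)),
    eval₂ ((algebraMap (MvPolynomial I (AlgebraicClosure F₀))
      (FractionRing (MvPolynomial I (AlgebraicClosure F₀)))).comp
        (MvPolynomial.map (algebraMap F₀ (AlgebraicClosure F₀)))) r Q ≠ 0

/-- The polynomial `Q(a, X)` in one variable `X` over `F`, for a point `a` over `F`. -/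
noncomputable def value {F₀ F : Type u} [Field F₀] [Field F] [Algebra F₀ F] {I : Type}
    (Q : (MvPolynomial I F₀)[X]) (a : I → F) : F[X] :=
  Q.map (MvPolynomial.aeval a : MvPolynomial I F₀ →ₐ[F₀] F).toRingHom

/-- For all finite extensions `k'` of `k`, all subfields `E` of `k'` which are algebraic over `F` and in which the
polynomial `R` has no root, and all curves over `k'` which map onto the curve given by the forms `h_u` and `f_s`: if
there is a Galois section, then the degree of `k'` over the field `E k` generated by `k` and `E` is divisible by every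
`d_s ≥ 3`, and by two if two of the `d_s` are equal to two.  A curve over `k'` which maps onto the curve `h = f = 0`
is given by its function field `K` and a nonconstant point `P` (a point such that one of the quotients `P_i / P_j` is
transcendental over `k'`) with coordinates in `K`; `K` may be any extension field of `k'`. -/
def SectionDegrees {F k : Type u} [Field F] [Field k] [Algebra F k] {n t : ℕ} {U : Type} (R : F[X])
    (h : U → MvPolynomial (Fin (n + 1)) k) (d : Fin t → ℕ)
    (f : Fin t → MvPolynomial (Fin (n + 1)) k) : Prop :=
  ∀ (k' : Type u) [Field k'] [Algebra k k'] [Algebra F k'] [IsScalarTower F k k'],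
    FiniteDimensional k k' →
    ∀ E : IntermediateField F k', (∀ z ∈ E, IsAlgebraic F z) → (∀ z ∈ E, aeval z R ≠ 0) →
    ∀ (K : Type u) [Field K] [Algebra k' K] (P : Fin (n + 1) → K) (i j : Fin (n + 1)),
      Transcendental k' (P i / P j) →
      (∀ u, MvPolynomial.aeval P (MvPolynomial.map (algebraMap k k') (h u)) = 0) →
      (∀ s, MvPolynomial.aeval P (MvPolynomial.map (algebraMap k k') (f s)) = 0) →
    Nonempty (GaloisSection k' K) →
    (∀ s, 3 ≤ d s → d s ∣ Module.finrank (IntermediateField.adjoin k (E : Set k')) k') ∧
    ∀ s s', s ≠ s' → d s = 2 → d s' = 2 →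
      2 ∣ Module.finrank (IntermediateField.adjoin k (E : Set k')) k'

/-- the degrees over a field between `k` and `k'` -/
theorem degrees_of {k₀ F k F'' K'' k' : Type u} [Field k₀] [Field F] [Field k] [Field F''] [Field K'']
    [Field k'] [Algebra k₀ k] [Algebra F k] [Algebra k K''] [Algebra K'' k'] [Algebra k k']
    [IsScalarTower k K'' k'] [Algebra F'' K''] [Algebra k₀ K''] {n t m r : ℕ} {d : Fin t → ℕ}
    {h : Fin r → MvPolynomial (Fin (n + 1)) k₀} {w : Fin (m + 1) → k₀}
    {a : (Σ s : Fin t, Expo n (d s)) × Fin (m + 1) → F} (φ : F →+* F'')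
    (hk₀ : ∀ c, algebraMap k₀ K'' c = algebraMap k K'' (algebraMap k₀ k c))
    (hφ : ∀ c, algebraMap F'' K'' (φ c) = algebraMap k K'' (algebraMap F k c))
    (h4 : ¬ ((∃ s, 3 ≤ d s ∧ Pool.Agent.BT.HasSecP (d s)
        (Pool.Agent.PL.sysW (⇑(algebraMap k₀ K'') ∘ w) (φ ∘ a))
        fun u => MvPolynomial.map (algebraMap k₀ K'') (h u)) ∨
      ∃ s s', s ≠ s' ∧ d s = 2 ∧ d s' = 2 ∧ Pool.Agent.BT.HasSecP 2
        (Pool.Agent.PL.sysW (⇑(algebraMap k₀ K'') ∘ w) (φ ∘ a))
        fun u => MvPolynomial.map (algebraMap k₀ K'') (h u)))
    (hfin : FiniteDimensional K'' k') (K : Type u) [Field K] [Algebra k' K] (P : Fin (n + 1) → K)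
    (i j : Fin (n + 1)) (hij : Transcendental k' (P i / P j))
    (hPh : ∀ u, MvPolynomial.aeval P (MvPolynomial.map (algebraMap k k')
      (MvPolynomial.map (algebraMap k₀ k) (h u))) = 0)
    (hPf : ∀ s, MvPolynomial.aeval P (MvPolynomial.map (algebraMap k k')
      (form (fun e => algebraMap k₀ k (w e)) a s)) = 0)
    (hsec : Nonempty (GaloisSection k' K)) :
    (∀ s, 3 ≤ d s → d s ∣ Module.finrank K'' k') ∧
      ∀ s s', s ≠ s' → d s = 2 → d s' = 2 → 2 ∣ Module.finrank K'' k' := by
  have h5 : ∀ u, MvPolynomial.aeval P (MvPolynomial.map (algebraMap K'' k')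
      (MvPolynomial.map (algebraMap k₀ K'') (h u))) = 0 := by
    intro u
    have h6 : (algebraMap K'' k').comp (algebraMap k₀ K'') =
        (algebraMap k k').comp (algebraMap k₀ k) := by
      refine RingHom.ext fun c => ?_
      rw [RingHom.comp_apply, hk₀, ← IsScalarTower.algebraMap_apply]
      rfl
    rw [MvPolynomial.map_map, h6, ← MvPolynomial.map_map]
    exact hPh u
  have h6 : ∀ s, MvPolynomial.aeval P (MvPolynomial.map (algebraMap K'' k')
      (Pool.Agent.BT.hform fun q =>
        Pool.Agent.PL.sysW (⇑(algebraMap k₀ K'') ∘ w) (φ ∘ a) ⟨s, q⟩)) = 0 := by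
    intro s
    have h8 : ∀ q, algebraMap K'' k' (Pool.Agent.PL.sysW (⇑(algebraMap k₀ K'') ∘ w) (φ ∘ a) ⟨s, q⟩) =
        algebraMap k k' (∑ e : Fin (m + 1), algebraMap F k (a (⟨s, q⟩, e)) *
          algebraMap k₀ k (w e)) := by
      intro q
      unfold Pool.Agent.PL.sysW
      rw [map_sum, map_sum]
      refine Finset.sum_congr rfl fun e _ => ?_
      rw [map_mul, map_mul]
      change algebraMap K'' k' (algebraMap F'' K'' (φ (a (⟨s, q⟩, e)))) *
        algebraMap K'' k' (algebraMap k₀ K'' (w e)) = _
      rw [hφ, hk₀, ← IsScalarTower.algebraMap_apply k K'' k',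
        ← IsScalarTower.algebraMap_apply k K'' k']
    have h7 : MvPolynomial.map (algebraMap K'' k') (Pool.Agent.BT.hform fun q =>
          Pool.Agent.PL.sysW (⇑(algebraMap k₀ K'') ∘ w) (φ ∘ a) ⟨s, q⟩) =
        MvPolynomial.map (algebraMap k k') (form (fun e => algebraMap k₀ k (w e)) a s) := by
      unfold Pool.Agent.BT.hform form
      rw [map_sum, map_sum]
      refine Finset.sum_congr rfl fun q _ => ?_
      rw [map_mul, map_mul, MvPolynomial.map_C, MvPolynomial.map_C, h8 q, map_prod, map_prod]
      simp only [map_pow, MvPolynomial.map_X]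
    rw [h7]
    exact hPf s
  refine ⟨fun s hs => ?_, fun s s' hss hs hs' => ?_⟩
  · by_contra hdeg
    exact h4 (Or.inl ⟨s, hs, k', inferInstance, inferInstance, inferInstance, hdeg, K, inferInstance,
      inferInstance, P, ⟨i, j, hij⟩, h5, h6, hsec⟩)
  · by_contra hdeg
    exact h4 (Or.inr ⟨s, s', hss, hs, hs', k', inferInstance, inferInstance, inferInstance, hdeg, K,
      inferInstance, inferInstance, P, ⟨i, j, hij⟩, h5, h6, hsec⟩)

/-- **One thin set for all fields of constants: the degrees of the fields over which a curve, cut out on a projective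
variety by forms with coefficients in a linear system, has a Galois section.** -/
theorem result {F₀ k₀ : Type u} [Field F₀] [CharZero F₀] [Field k₀] [Algebra F₀ k₀]
    -- `k₀` is a finitely generated field
    (hk₀ : ∃ S : Finset k₀, Subfield.closure (S : Set k₀) = ⊤)
    -- one of the quotients of the `w_e` is transcendental over `F₀`
    {m : ℕ} {w : Fin (m + 1) → k₀} (hw : ∃ i l, Transcendental F₀ (w i / w l))
    -- the number of the forms, the dimension of the projective space and the degrees
    {t n : ℕ} (ht : t + 1 ≤ n) (d : Fin t → ℕ)
    -- the variety given by the forms `h_u` over `k₀` has dimension at most `t + 1`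
    {r : ℕ} {e : Fin r → ℕ} {h : Fin r → MvPolynomial (Fin (n + 1)) k₀}
    (hh : ∀ u, (h u).IsHomogeneous (e u)) (hdim : DimLE h (t + 1)) :
    -- there is one polynomial `Q` over `F₀`, without root
    ∃ Q : (MvPolynomial ((Σ s : Fin t, Expo n (d s)) × Fin (m + 1)) F₀)[X], NoRoot Q ∧
      -- which does not depend on `X`, if two of the quotients are algebraically independent over `F₀`
      ((∃ i j l, AlgebraicIndependent F₀ ![w i / w l, w j / w l]) → Q.natDegree = 0) ∧
      -- such that the following holds for all composites `k = F k₀`
      ∀ (F k : Type u) [Field F] [Field k] [Algebra F₀ F] [Algebra F₀ k] [Algebra F k] [Algebra k₀ k]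
        [IsScalarTower F₀ F k] [IsScalarTower F₀ k₀ k],
        (∃ S : Finset F, Subfield.closure (S : Set F) = ⊤) → FreeComposite F₀ k₀ F k →
        ∀ a : (Σ s : Fin t, Expo n (d s)) × Fin (m + 1) → F,
          SectionDegrees (value Q a) (fun u => MvPolynomial.map (algebraMap k₀ k) (h u)) d
            (form (fun e => algebraMap k₀ k (w e)) a) := by
  obtain ⟨i, l, hT⟩ := hw
  obtain ⟨y, hy⟩ := hdim
  obtain ⟨Q, hQ, hB, hQa⟩ := Pool.Agent.UT.geoE (Pool.Agent.UT.bertiniT (F₀ := F₀) hk₀ hT
    (B := ∃ i j l, AlgebraicIndependent F₀ ![w i / w l, w j / w l]) (fun b => b) ht h hh y hy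
    (d := d))
  refine ⟨Q, hQ, hB, ?_⟩
  intro F k _ _ _ _ _ _ _ _ hF hfree a k' _ _ _ _ hfin E hE hroot K _ _ P i j hij hPh hPf hsec
  obtain ⟨-, h2⟩ := hQa F k hF hfree.1 (fun {n x} hx => hfree.2 n x hx) a
  obtain ⟨F'', _, _, _, φ, hk₀'', hφ, h4⟩ := h2 k' hfin E hE hroot
  exact degrees_of φ hk₀'' hφ h4 inferInstance K P i j hij hPh hPf hsec

end Pool.Agent.Helper37.Draft.LinearSystemsOnVarieties
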