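import Pool.Agent.Helper97.TW.AllS
import Pool.Agent.Helper37.TW3.AllB
import Pool.Agent.Helper37.TW3.Res

/-!
# Sections and points of almost all quadratic twists of an odd degree hyperelliptic curve

Let `k` be a number field and `f ∈ k[x]` separable of odd degree at least `5`.  The twists
`y² = c f(x)`, `c ∈ k*/k*²`, of the curve `y² = f(x)` are ordered by the norm of the product of the
primes `v` of `k` with `v(c)` odd.  Every twist has the rational ramification points: the point at
infinity and the points `(a, 0)`, `a ∈ k`, `f(a) = 0`; and their sections.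

If `f` has roots in `k` we assume `Nondegenerate f`: for every root `b ∈ k` there is another root
of odd degree over `k` (true if `f` has two roots in `k`), and there are other roots `p ≠ q` such
that `(b - p)(b - q)` is not a square in `k(p, q)`; for two roots `a ≠ b` in `k` there is another
root `p` such that `(a - p)(b - p)` is not a square in `k(p)`.

**Theorem.**  For 100 percent of the `c`, every Galois section of `y² = c f(x)`, and of every curve
over `k` which maps onto it, agrees modulo `2` with the section of a rational ramification point: it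
fixes a place above this point of the maximal abelian unramified extension of exponent `2` of the
function field `kbar(x, y)`.  If `f` is irreducible then the same holds modulo `2ⁿ`, for every `n`.

(The stabiliser of such a place in the Galois group of that extension over `k(x, y)` is the image of
the section of the point.)

**Rational points.**  For 100 percent of the `c` all rational points `(x₀, y₀)` of the twist with
`y₀ ≠ 0` satisfy `x₀ - x = t p(x)² mod f(x)` for some `t ∈ k` and `p ∈ k[x]`, or
`(x - x₀)(x - a) = p(x)² mod f(x)` for some `a ∈ k`, `f(a) = 0`, and `p ∈ k[x]`.  These conditions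
do not depend on `c`: such `x₀` come from the `k`-points of finitely many fixed curves (each is an
intersection of quadrics and of genus at least `5`), so there are finitely many by the theorem of
Faltings; and then 100 percent of the twists have no rational points except the rational
ramification points.
-/

set_option autoImplicit false

namespace Pool.Agent.Results.MP_e66f84_ag.OddDegreeTwists

open Polynomial NumberField IsDedekindDomain Filter Topology Pool.Agent.Helper91.Sect

/-- `v(c)` is odd: the value of `c` is not the square of the value of an element. -/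
def IsOdd {k : Type} [Field k] [NumberField k] (v : HeightOneSpectrum (𝓞 k)) (c : k) : Prop :=
  ∀ d : k, v.valuation k c ≠ v.valuation k d ^ 2

open scoped Classical in
/-- The norm of the product of the primes `v` of `k` with `v(c)` odd. -/
noncomputable def cond {k : Type} [Field k] [NumberField k] (c : k) : ℕ :=
  ∏ᶠ v : HeightOneSpectrum (𝓞 k), if IsOdd v c then Ideal.absNorm v.asIdeal else 1

/-- The group `k*/k*²`. -/
abbrev Cls (k : Type) [Field k] : Type := kˣ ⧸ (powMonoidHom 2 : kˣ →* kˣ).range

/-- The classes in `k*/k*²` of the elements `c` with `cond c ≤ X` and the property `P`. -/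
def classes {k : Type} [Field k] [NumberField k] (P : k → Prop) (X : ℕ) : Set (Cls k) :=
  {C | ∃ c : kˣ, (c : Cls k) = C ∧ cond (c : k) ≤ X ∧ P c}

/-- Zero percent of the classes `c` have the property `P`. -/
def ZeroPercent {k : Type} [Field k] [NumberField k] (P : k → Prop) : Prop :=
  Tendsto (fun X : ℕ => (Nat.card (classes P X) : ℝ) /
    Nat.card (classes (fun _ : k => True) X)) atTop (𝓝 0)

/-- The condition on `f`, if it has roots in `k`. -/
structure Nondegenerate {k : Type} [Field k] (f : k[X]) : Prop where
  /-- besides a root `b ∈ k` there is a root of odd degree over `k` -/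
  odd : ∀ b : k, eval b f = 0 → ∃ p : AlgebraicClosure k, aeval p f = 0 ∧
    p ≠ algebraMap k (AlgebraicClosure k) b ∧ Odd (minpoly k p).natDegree
  /-- besides a root `b ∈ k` there are roots `p ≠ q` with `(b - p)(b - q)` not a square in
  `k(p, q)` -/
  one : ∀ b : k, eval b f = 0 → ∃ p q : AlgebraicClosure k, aeval p f = 0 ∧ aeval q f = 0 ∧
    p ≠ algebraMap k (AlgebraicClosure k) b ∧ q ≠ algebraMap k (AlgebraicClosure k) b ∧ p ≠ q ∧
    ∀ d ∈ IntermediateField.adjoin k {p, q}, d ^ 2 ≠
      (algebraMap k (AlgebraicClosure k) b - p) * (algebraMap k (AlgebraicClosure k) b - q)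
  /-- besides two roots `a ≠ b` in `k` there is a root `p` with `(a - p)(b - p)` not a square in
  `k(p)` -/
  two : ∀ a b : k, eval a f = 0 → eval b f = 0 → a ≠ b →
    ∃ p : AlgebraicClosure k, aeval p f = 0 ∧ p ≠ algebraMap k (AlgebraicClosure k) a ∧
    p ≠ algebraMap k (AlgebraicClosure k) b ∧
    ∀ d ∈ IntermediateField.adjoin k {p}, d ^ 2 ≠
      (algebraMap k (AlgebraicClosure k) a - p) * (algebraMap k (AlgebraicClosure k) b - p)

/-- The field `kbar(x, y)`, in the algebraic closure of `K`. -/
noncomputable def Xbar (k : Type) {K : Type} [Field k] [Field K] [Algebra k K] (x y : K) :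
    Subfield (AlgebraicClosure K) :=
  Subfield.closure ({z | IsAlgebraic k z} ∪
    {algebraMap K (AlgebraicClosure K) x, algebraMap K (AlgebraicClosure K) y})

/-- `w` is an `m`-th root of an element `u` of `kbar(x, y)` whose divisor is divisible by `m`: at
every valuation ring `P` of `kbar(x, y)` which contains the constants, the value of `u` is an `m`-th
power of a value. -/
def IsUnramifiedRoot (k : Type) {K : Type} [Field k] [Field K] [Algebra k K] (x y : K) (m : ℕ)
    (w : AlgebraicClosure K) : Prop :=
  ∃ u : Xbar k x y, (u : AlgebraicClosure K) = w ^ m ∧ ∀ P : ValuationSubring (Xbar k x y),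
    (∀ z : Xbar k x y, IsAlgebraic k (z : AlgebraicClosure K) → z ∈ P) →
    ∃ z : Xbar k x y, P.valuation u = P.valuation z ^ m

/-- The maximal abelian unramified extension of exponent `m` of `kbar(x, y)`. -/
noncomputable def Level (k : Type) {K : Type} [Field k] [Field K] [Algebra k K] (x y : K) (m : ℕ) :
    Subfield (AlgebraicClosure K) :=
  Subfield.closure ({z | IsAlgebraic k z} ∪
    {algebraMap K (AlgebraicClosure K) x, algebraMap K (AlgebraicClosure K) y} ∪
    {w | IsUnramifiedRoot k x y m w})

/-- The section `s` of `K ∋ x, y, u` agrees modulo `m` with a point, at which `u` has a pole, of the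
curve with function field `k(x, y)`: it fixes a place above this point of `Level k x y m`.  There is
a valuation ring `Q` of the algebraic closure of `K` which contains the constants and not `u`, and
`Level k x y m` is contained in `Kur k K` and all `s(g)` map `Q ∩ Level k x y m` to itself. -/
def Agrees {k K : Type} [Field k] [Field K] [Algebra k K] (s : GaloisSection k K) (x y u : K)
    (m : ℕ) : Prop :=
  ∃ Q : ValuationSubring (AlgebraicClosure K), (∀ z, IsAlgebraic k z → z ∈ Q) ∧
    algebraMap K (AlgebraicClosure K) u ∉ Q ∧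
    ∀ w ∈ Level k x y m, ∃ hw : w ∈ Kur k K, ∀ g : Gk k K,
      (w ∈ Q ↔ (s.toHom g ⟨w, hw⟩ : AlgebraicClosure K) ∈ Q)

/-- The section `s` of `K ∋ x, y` agrees modulo `m` with the point at infinity or with a point
`(a, 0)`, `a ∈ k`, `f(a) = 0`. -/
def AgreesWithRamificationPoint {k K : Type} [Field k] [Field K] [Algebra k K] (f : k[X])
    (s : GaloisSection k K) (x y : K) (m : ℕ) : Prop :=
  Agrees s x y x m ∨ ∃ a : k, eval a f = 0 ∧ Agrees s x y (x - algebraMap k K a)⁻¹ m

/-- Some curve over `k` which maps onto `y² = c f(x)` has a section which does not agree modulo `m`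
with a rational ramification point: there are an extension `K` of `k` and `x, y ∈ K` with `x`
transcendental and `y² = c f(x)`, and such a section of `K/k` (`K` may be any field; the curve
itself is `K = k(x, y)`). -/
def HasOtherSection {k : Type} [Field k] (f : k[X]) (m : ℕ) (c : k) : Prop :=
  ∃ (K : Type) (_ : Field K) (_ : Algebra k K) (x y : K), Transcendental k x ∧
    y ^ 2 = algebraMap k K c * aeval x f ∧ ∃ s : GaloisSection k K,
      ¬ AgreesWithRamificationPoint f s x y m

/-- `x₀ - x = t p(x)² mod f(x)` for some `t ∈ k` and `p ∈ k[x]`, or `(x - x₀)(x - a) = p(x)² mod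
f(x)` for some `a ∈ k`, `f(a) = 0`, and `p ∈ k[x]`. -/
def OnFixedCurve {k : Type} [Field k] (f : k[X]) (x₀ : k) : Prop :=
  (∃ (t : k) (p : k[X]), f ∣ C x₀ - X - C t * p ^ 2) ∨
    ∃ a : k, eval a f = 0 ∧ ∃ p : k[X], f ∣ (X - C x₀) * (X - C a) - p ^ 2

theorem result {k : Type} [Field k] [NumberField k] (f : k[X]) (hsep : f.Separable)
    (hodd : Odd f.natDegree) (hdeg : 5 ≤ f.natDegree) (hf : Nondegenerate f) :
    (∀ X : ℕ, (classes (fun _ : k => True) X).Finite) ∧
    -- in every twist the rational ramification points have sections which agree with them modulo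
    -- all numbers
    (∀ c : k, c ≠ 0 → ∃ (K : Type) (_ : Field K) (_ : Algebra k K) (x y : K),
      Transcendental k x ∧ y ^ 2 = algebraMap k K c * aeval x f ∧
      IntermediateField.adjoin k {x, y} = ⊤ ∧
      ∃ s : GaloisSection k K, ∀ m : ℕ, 0 < m → Agrees s x y x m) ∧
    (∀ c : k, c ≠ 0 → ∀ a : k, eval a f = 0 →
      ∃ (K : Type) (_ : Field K) (_ : Algebra k K) (x y : K),
      Transcendental k x ∧ y ^ 2 = algebraMap k K c * aeval x f ∧
      IntermediateField.adjoin k {x, y} = ⊤ ∧
      ∃ s : GaloisSection k K, ∀ m : ℕ, 0 < m → Agrees s x y (x - algebraMap k K a)⁻¹ m) ∧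
    -- 100 percent of the twists, and the curves above them, have no other section modulo `2`
    ZeroPercent (HasOtherSection f 2) ∧
    -- and none modulo `2 ^ n` if `f` is irreducible
    (Irreducible f → ∀ n : ℕ, ZeroPercent (HasOtherSection f (2 ^ n))) ∧
    -- the other rational points of 100 percent of the twists come from finitely many fixed curves
    ZeroPercent (fun c : k => ∃ x₀ y₀ : k, y₀ ^ 2 = c * eval x₀ f ∧ y₀ ≠ 0 ∧
      ¬ OnFixedCurve f x₀) ∧
    -- and if these have finitely many points (Faltings) then there are no other rational points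
    ({x₀ : k | OnFixedCurve f x₀}.Finite →
      ZeroPercent (fun c : k => ∃ x₀ y₀ : k, y₀ ^ 2 = c * eval x₀ f ∧ y₀ ≠ 0)) := by
  have hone := Pool.Agent.TW3.fin3 k f hsep hodd hdeg ⟨hf.odd, hf.one, hf.two⟩
  have key : ∀ P : k → Prop, Pool.Agent.TW.Rare P → ZeroPercent P := by
    intro P hP
    have h1 := Pool.Agent.HG.ratioP Pool.Agent.HG.sel k P hP
    have e1 : ∀ X : ℕ, classes (fun _ : k => True) X = Pool.Agent.HG.clsLE k X := fun X =>
      Set.ext fun C => ⟨fun ⟨c, h1, h2, _⟩ => ⟨c, h1, h2⟩, fun ⟨c, h1, h2⟩ => ⟨c, h1, h2, trivial⟩⟩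
    unfold ZeroPercent
    simp only [e1]
    exact h1
  refine ⟨fun X => ?_, fun c hc => Pool.Agent.TOWS.exists_agrS Pool.Agent.TW.gC hsep hodd hdeg hc,
    fun c hc a ha => Pool.Agent.TW3.exists_agr3 Pool.Agent.TW.gC hsep hodd hdeg hc ha,
    key _ (Pool.Agent.TW3.rare_mono hone fun c _ h => ?_), fun hirr n => key _
      (Pool.Agent.TW3.rare_mono (Pool.Agent.TW.fin k f hirr hodd hdeg n) fun c _ h => ?_),
    key _ (Pool.Agent.TW3.rare_pts3 hsep hodd hone),
    fun hF => key _ (Pool.Agent.TW3.rare_any3 hsep hodd hone hF)⟩
  · refine (Pool.Agent.HG.clsLE_finite (k := k) Pool.Agent.HG.sel X).subset ?_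
    rintro C ⟨c, h1, h2, _⟩
    exact ⟨c, h1, h2⟩
  · obtain ⟨K, i1, i2, x, y, hx, hy, s, hs⟩ := h
    refine ⟨K, i1, i2, x, y, hx, hy, s, fun h1 => hs (Or.inl h1), fun a ha h1 => ?_⟩
    exact hs (Or.inr ⟨a, ha, Pool.Agent.TW3.agr3_inv.2 h1⟩)
  · obtain ⟨K, i1, i2, x, y, hx, hy, s, hs⟩ := h
    exact ⟨K, i1, i2, x, y, hx, hy, s, fun h1 => hs (Or.inl h1)⟩

end Pool.Agent.Results.MP_e66f84_ag.OddDegreeTwists
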