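import Pool.Agent.Helper37.OPG.Fin

/-!
# All curves outside a hypersurface, cut out on a projective variety by forms with coefficients in a linear system:
# no Galois sections

Let `k` be a finitely generated field of characteristic zero and let `F` be a finitely generated subfield of `k`.
Let `w_0, …, w_m` be elements of `k` such that the field generated over `F` by the quotients `w_i / w_j` has
transcendence degree at least two over `F`, that is, two of the quotients `w_i / w_l` with the same denominator are
algebraically independent over `F`.  For example `k = F(T_1, …, T_r)` with `r ≥ 2` and the monomials of degree at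
most `m ≥ 1`, or `k` the function field of a projective variety `V` over `F` and `w` a basis of the space of global
sections of a line bundle on `V` such that the image of the corresponding rational map has dimension at least two.

Let `X ⊂ P^n` be a projective variety (or scheme) over `k` of dimension at most `t + 1`, given by forms `h_u`, and let
`d_1, …, d_t` be degrees.  We consider the curves `C = X ∩ {f_1 = … = f_t = 0}`, where `f_s` runs through all forms
of degree `d_s` in `X_0, …, X_n` whose coefficients are in the `F`-vector space generated by `w_0, …, w_m`.  There is
a nonzero polynomial `Ψ` over `F` in all these coefficients such that for all `(f_1, …, f_t)` with `Ψ(f) ≠ 0` the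
following holds: if `k'` is a finite extension of `k` such that the curve `C` over `k'`, or some curve (or variety)
over `k'` with a nonconstant map to `C`, has a Galois section, then the degree of `k'` over `k` is divisible by every
`d_s ≥ 3`, and by two if two of the degrees are equal to two.

Special cases (always for all curves outside one hypersurface of the affine space of the coefficients).
* `X = P^(t + 1)`: the complete intersection curves of all multidegrees `(d_1, …, d_t)` with `d_s ≥ 2` except the
  conics.  So the section conjecture holds for all complete intersection curves over `k = F(T_1, …, T_r)`, `r ≥ 2`,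
  with coefficients of degree at most `m ≥ 1`, outside a hypersurface: plane curves of degree `d ≥ 4` (for `d = 4` the
  non-hyperelliptic curves of genus three), the complete intersections of a quadric and a cubic in `P^3` (the
  non-hyperelliptic curves of genus four), of three quadrics in `P^4` (the general curves of genus five), ….
* `X` a smooth projective surface and `t = 1`: the curves in `|d H|`, `d ≥ 3`, cut out by forms, where `H` is the
  hyperplane class of `X`.
There is no assumption on the singularities of `X`.

If the transcendence degree of the linear system is one, the statement is false (a pencil of plane curves has curves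
with rational points for a Zariski dense set of the parameters, those which have a base point over `F`); then the
exceptional set is thin (the theorem `HypersurfaceSections`).
-/

universe u

namespace Pool.Agent.Helper37.Draft.OpenSystems

open Polynomial Pool.Agent.Helper91.Sect

/-- the exponents of the monomials of degree `d` in `X_0, …, X_n` -/
abbrev Expo (n d : ℕ) : Type := {q : Fin (n + 1) → Fin (d + 1) // ∑ i, (q i : ℕ) = d}

/-- The form `f_s = ∑_q a_(s,q) X^q` of degree `d_s` with the coefficients `a_(s,q) = ∑_{e ≤ m} a_(s,q,e) w_e`. -/
noncomputable def form {F k : Type u} [Field F] [Field k] [Algebra F k] {n t m : ℕ}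
    {d : Fin t → ℕ} (w : Fin (m + 1) → k) (a : (Σ s : Fin t, Expo n (d s)) × Fin (m + 1) → F)
    (s : Fin t) : MvPolynomial (Fin (n + 1)) k :=
  ∑ q : Expo n (d s), MvPolynomial.C (∑ e : Fin (m + 1), algebraMap F k (a (⟨s, q⟩, e)) * w e) *
    ∏ i, MvPolynomial.X i ^ (q.1 i : ℕ)

/-- The subscheme of `P^n` given by the forms `h_u` has dimension at most `D`: there are `D + 1` linear forms which
have no common zero on it. -/
def DimLE {k : Type u} [Field k] {n : ℕ} {U : Type} (h : U → MvPolynomial (Fin (n + 1)) k)
    (D : ℕ) : Prop :=
  ∃ l : Fin (D + 1) → Fin (n + 1) → k, ∀ (L : Type u) [Field L] [Algebra k L] (P : Fin (n + 1) → L),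
    (∀ i, ∑ j, algebraMap k L (l i j) * P j = 0) → (∀ u, MvPolynomial.aeval P (h u) = 0) → P = 0

/-- If a curve over the finite extension `k'` of `k` which maps onto the curve given by the forms `h_u` and `f_s` has
a Galois section, then `[k' : k]` is divisible by every `d_s ≥ 3`, and by two if two of the `d_s` are equal to two.
Here a curve over `k'` which maps onto the curve `h = f = 0` is given by its function field `K` and a nonconstant
point `P` (a point such that one of the quotients `P_i / P_j` is transcendental over `k'`) with coordinates in `K`;
`K` may be any extension field of `k'`. -/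
def SectionDegrees {k : Type u} [Field k] {n t : ℕ} {U : Type} (h : U → MvPolynomial (Fin (n + 1)) k)
    (d : Fin t → ℕ) (f : Fin t → MvPolynomial (Fin (n + 1)) k) : Prop :=
  ∀ (k' : Type u) [Field k'] [Algebra k k'], FiniteDimensional k k' →
    ∀ (K : Type u) [Field K] [Algebra k' K] (P : Fin (n + 1) → K) (i j : Fin (n + 1)),
      Transcendental k' (P i / P j) →
      (∀ u, MvPolynomial.aeval P (MvPolynomial.map (algebraMap k k') (h u)) = 0) →
      (∀ s, MvPolynomial.aeval P (MvPolynomial.map (algebraMap k k') (f s)) = 0) →
    Nonempty (GaloisSection k' K) →
    (∀ s, 3 ≤ d s → d s ∣ Module.finrank k k') ∧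
      ∀ s s', s ≠ s' → d s = 2 → d s' = 2 → 2 ∣ Module.finrank k k'

/-- **The curves cut out on a projective variety by forms with coefficients in a linear system of transcendence
degree at least two, all outside one hypersurface, have no Galois sections over extensions of small degree.** -/
theorem result {F k : Type u} [Field F] [CharZero F] [Field k] [Algebra F k]
    -- `F` and `k` are finitely generated fields
    (hF : ∃ S : Finset F, Subfield.closure (S : Set F) = ⊤)
    (hk : ∃ S : Finset k, Subfield.closure (S : Set k) = ⊤)
    -- two of the quotients of the `w_e` are algebraically independent over `F`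
    {m : ℕ} {w : Fin (m + 1) → k} {i j l : Fin (m + 1)}
    (hw : AlgebraicIndependent F ![w i / w l, w j / w l])
    -- the number of the forms, the dimension of the projective space and the degrees
    {t n : ℕ} (ht : t + 1 ≤ n) (d : Fin t → ℕ)
    -- the variety given by the forms `h_u` has dimension at most `t + 1`
    {r : ℕ} {e : Fin r → ℕ} {h : Fin r → MvPolynomial (Fin (n + 1)) k}
    (hh : ∀ u, (h u).IsHomogeneous (e u)) (hdim : DimLE h (t + 1)) :
    -- the exceptional curves are in a hypersurface
    ∃ Ψ : MvPolynomial ((Σ s : Fin t, Expo n (d s)) × Fin (m + 1)) F, Ψ ≠ 0 ∧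
      ∀ a, MvPolynomial.eval a Ψ ≠ 0 → SectionDegrees h d (form w a) := by
  obtain ⟨y, hy⟩ := hdim
  obtain ⟨Ψ, hΨ, hΨa⟩ := Pool.Agent.OPG.bertiniO hF hk hw ht h hh y hy (d := d)
  refine ⟨Ψ, hΨ, fun a ha => ?_⟩
  by_contra hne
  refine ha (hΨa a ?_)
  by_contra hne'
  refine hne ?_
  intro k' _ _ hfin K _ _ P i j hij hPh hPf hsec
  refine ⟨fun s hs => ?_, fun s s' hss hs hs' => ?_⟩
  · by_contra hdeg
    exact hne' (Or.inl ⟨s, hs, k', _, _, hfin, hdeg, K, _, _, P, ⟨i, j, hij⟩, hPh, hPf, hsec⟩)
  · by_contra hdeg
    exact hne' (Or.inr ⟨s, s', hss, hs, hs', k', _, _, hfin, hdeg, K, _, _, P, ⟨i, j, hij⟩, hPh, hPf,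
      hsec⟩)

end Pool.Agent.Helper37.Draft.OpenSystems
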