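import Pool.Agent.Helper37.SX.Fin
import Pool.Agent.Helper45.OPN.Open

/-!
# All curves outside a hypersurface, cut out on a projective variety by forms with coefficients in a linear system:
# no Galois sections

Let `F ⊂ F₁ ⊂ k` be fields of characteristic zero, `F₁` and `k` finitely generated.  Let `v_0, …, v_l` be elements
of `F₁` such that one of the quotients `v_i / v_j` is transcendental over `F`, and let `w_0, …, w_m` be elements of
`k` such that one of the quotients `w_i / w_j` is transcendental over `F₁`.  For example `k = F(T_1, …, T_r)` with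
`r ≥ 2`, `F₁ = F(T_1)`, the `v` the powers of `T_1` and the `w` the monomials in `T_2, …, T_r` of degree at most `m`
in each variable.

Let `X ⊂ P^n` be a projective variety (or scheme) over `k` of dimension at most `t + 1`, given by forms `h_u`, and let
`d_1, …, d_t` be degrees.  We consider the curves `C = X ∩ {f_1 = … = f_t = 0}`, where `f_s` runs through all forms
of degree `d_s` in `X_0, …, X_n` whose coefficients are combinations of the products `v_e w_e'` over `F`.  There is a
nonzero polynomial `Ψ` over `F` in all these coefficients such that for all `(f_1, …, f_t)` with `Ψ(f) ≠ 0` the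
following holds: if `k'` is a finite extension of `k` such that the curve `C` over `k'`, or some curve (or variety)
over `k'` with a nonconstant map to `C`, has a Galois section, then the degree of `k'` over `k` is divisible by every
`d_s ≥ 3`, and by two if two of the degrees are equal to two.

Special cases (always for the curves outside one hypersurface of the affine space of the coefficients).
* `X = P^(t + 1)`: the complete intersection curves of all multidegrees `(d_1, …, d_t)` with `d_s ≥ 2` except the
  conics.  So the section conjecture holds for all complete intersection curves over `k = F(T_1, …, T_r)`, `r ≥ 2`,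
  with coefficients of degree at most `m ≥ 1` in each `T_i`, outside a hypersurface: plane curves of degree `d ≥ 4`
  (for `d = 4` the non-hyperelliptic curves of genus three), the complete intersections of a quadric and a cubic in
  `P^3` (the non-hyperelliptic curves of genus four), of three quadrics in `P^4` (the general curves of genus
  five), ….
* `X` a smooth projective surface and `t = 1`: the curves in `|d H|`, `d ≥ 3`, cut out by forms, where `H` is the
  hyperplane class of `X`.
There is no assumption on the singularities of `X`.
-/

universe u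

namespace Pool.Agent.Helper37.Draft.ZariskiOpenSections

open Polynomial Pool.Agent.Helper91.Sect

/-- the exponents of the monomials of degree `d` in `X_0, …, X_n` -/
abbrev Expo (n d : ℕ) : Type := {q : Fin (n + 1) → Fin (d + 1) // ∑ i, (q i : ℕ) = d}

/-- The form `f_s = ∑_q a_(s,q) X^q` of degree `d_s` with the coefficients
`a_(s,q) = ∑_{e' ≤ m} ∑_{e ≤ l} a_(s,q,e',e) v_e w_e'`. -/
noncomputable def form {F F₁ k : Type u} [Field F] [Field F₁] [Field k] [Algebra F F₁] [Algebra F₁ k]
    {n t l m : ℕ} {d : Fin t → ℕ} (v : Fin (l + 1) → F₁) (w : Fin (m + 1) → k)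
    (a : ((Σ s : Fin t, Expo n (d s)) × Fin (m + 1)) × Fin (l + 1) → F)
    (s : Fin t) : MvPolynomial (Fin (n + 1)) k :=
  ∑ q : Expo n (d s), MvPolynomial.C (∑ e' : Fin (m + 1),
    algebraMap F₁ k (∑ e : Fin (l + 1), algebraMap F F₁ (a ((⟨s, q⟩, e'), e)) * v e) * w e') *
      ∏ i, MvPolynomial.X i ^ (q.1 i : ℕ)

/-- The subscheme of `P^n` given by the forms `h_u` has dimension at most `D`: there are `D + 1` linear forms which
have no common zero on it. -/
def DimLE {k : Type u} [Field k] {n : ℕ} {U : Type} (h : U → MvPolynomial (Fin (n + 1)) k)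
    (D : ℕ) : Prop :=
  ∃ l : Fin (D + 1) → Fin (n + 1) → k, ∀ (L : Type u) [Field L] [Algebra k L] (P : Fin (n + 1) → L),
    (∀ i, ∑ j, algebraMap k L (l i j) * P j = 0) → (∀ u, MvPolynomial.aeval P (h u) = 0) → P = 0

/-- If a curve over the finite extension `k'` of `k` which maps onto the curve given by the forms `h_u` and `f_s` has
a Galois section, then `[k' : k]` is divisible by every `d_s ≥ 3`, and by two if two of the `d_s` are equal to two.
Here a curve over `k'` which maps onto the curve `h = f = 0` is given by its function field `K` and a nonconstant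
point `P` (a point such that one of the quotients `P_i / P_j` is transcendental over `k'`) with coordinates in `K`;
`K` may be any extension field of `k'`. -/
def SectionDegrees {k : Type u} [Field k] {n t : ℕ} {U : Type} (h : U → MvPolynomial (Fin (n + 1)) k)
    (d : Fin t → ℕ) (f : Fin t → MvPolynomial (Fin (n + 1)) k) : Prop :=
  ∀ (k' : Type u) [Field k'] [Algebra k k'], FiniteDimensional k k' →
    ∀ (K : Type u) [Field K] [Algebra k' K] (P : Fin (n + 1) → K) (i j : Fin (n + 1)),
      Transcendental k' (P i / P j) →
      (∀ u, MvPolynomial.aeval P (MvPolynomial.map (algebraMap k k') (h u)) = 0) →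
      (∀ s, MvPolynomial.aeval P (MvPolynomial.map (algebraMap k k') (f s)) = 0) →
    Nonempty (GaloisSection k' K) →
    (∀ s, 3 ≤ d s → d s ∣ Module.finrank k k') ∧
      ∀ s s', s ≠ s' → d s = 2 → d s' = 2 → 2 ∣ Module.finrank k k'

/-- **The curves cut out on a projective variety by forms with coefficients in a linear system, all outside one
hypersurface, have no Galois sections over extensions of small degree.** -/
theorem result {F F₁ k : Type u} [Field F] [CharZero F] [Field F₁] [Field k] [Algebra F F₁] [Algebra F₁ k]
    -- `F₁` and `k` are finitely generated fields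
    (hF₁ : ∃ S : Finset F₁, Subfield.closure (S : Set F₁) = ⊤)
    (hk : ∃ S : Finset k, Subfield.closure (S : Set k) = ⊤)
    -- the quotient of two of the `v_e` is transcendental over `F`
    {l : ℕ} {v : Fin (l + 1) → F₁} {i₀ j₀ : Fin (l + 1)} (hv : Transcendental F (v i₀ / v j₀))
    -- the quotient of two of the `w_e` is transcendental over `F₁`
    {m : ℕ} {w : Fin (m + 1) → k} {i j : Fin (m + 1)} (hw : Transcendental F₁ (w i / w j))
    -- the number of the forms, the dimension of the projective space and the degrees
    {t n : ℕ} (ht : t + 1 ≤ n) (d : Fin t → ℕ)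
    -- the variety given by the forms `h_u` has dimension at most `t + 1`
    {r : ℕ} {e : Fin r → ℕ} {h : Fin r → MvPolynomial (Fin (n + 1)) k}
    (hh : ∀ u, (h u).IsHomogeneous (e u)) (hdim : DimLE h (t + 1)) :
    -- the exceptional curves are in a hypersurface
    ∃ Ψ : MvPolynomial (((Σ s : Fin t, Expo n (d s)) × Fin (m + 1)) × Fin (l + 1)) F, Ψ ≠ 0 ∧
      ∀ a, MvPolynomial.eval a Ψ ≠ 0 → SectionDegrees h d (form v w a) := by
  have : CharZero F₁ := charZero_of_injective_algebraMap (algebraMap F F₁).injective
  obtain ⟨y, hy⟩ := hdim
  obtain ⟨Ψ, hΨ, hΨa⟩ := Pool.Agent.OPN.open_of_thin hF₁ hv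
    (Pool.Agent.SX.bertiniS hF₁ hk hw ht h hh y hy (d := d))
  refine ⟨Ψ, hΨ, fun a ha => ?_⟩
  by_contra hne
  refine ha (hΨa a ?_)
  by_contra hne'
  refine hne ?_
  intro k' _ _ hfin K _ _ P i j hij hPh hPf hsec
  refine ⟨fun s hs => ?_, fun s s' hss hs hs' => ?_⟩
  · by_contra hdeg
    exact hne' (Or.inl ⟨s, hs, k', _, _, hfin, hdeg, K, _, _, P, ⟨i, j, hij⟩, hPh, hPf, hsec⟩)
  · by_contra hdeg
    exact hne' (Or.inr ⟨s, s', hss, hs, hs', k', _, _, hfin, hdeg, K, _, _, P, ⟨i, j, hij⟩, hPh, hPf,
      hsec⟩)

end Pool.Agent.Helper37.Draft.ZariskiOpenSections
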